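import Mathlib

set_option autoImplicit false

namespace Pool.Agent.H.MP_8ee885_co

open Matrix

theorem det_odd {k : ℕ} (G : Matrix (Fin k) (Fin k) (ZMod 2)) (hs : ∀ i j, G i j = G j i)
    (hd : ∀ i, G i i = 0) (hk : Odd k) : G.det = 0 := by
  let H : Matrix (Fin k) (Fin k) ℤ := fun i j => if i < j then ((G i j).val : ℤ) else -((G i j).val : ℤ)
  have h1 : Hᵀ = -H := by
    ext i j
    simp only [H, transpose_apply, neg_apply]
    rcases lt_trichotomy i j with h | h | h
    · rw [if_neg (not_lt.2 h.le), if_pos h, hs j i]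
    · subst h; simp [hd]
    · rw [if_pos h, if_neg (not_lt.2 h.le), hs j i, neg_neg]
  have h2 : H.det = 0 := by
    have := det_transpose H
    rw [h1, det_neg, Fintype.card_fin, hk.neg_one_pow] at this
    linarith
  have h3 : G = (Int.castRingHom (ZMod 2)).mapMatrix H := by
    ext i j
    simp only [H, RingHom.mapMatrix_apply, map_apply, eq_intCast]
    split_ifs <;> simp
  rw [h3, ← RingHom.map_det, h2, map_zero]

theorem alt_even {ι : Type} [Fintype ι] [DecidableEq ι] (A : Matrix ι ι (ZMod 2))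
    (hs : ∀ i j, A i j = A j i) (hd : ∀ i, A i i = 0) :
    Even (Module.finrank (ZMod 2) (LinearMap.range A.mulVecLin)) := by
  have hsym : ∀ x y : ι → ZMod 2, x ⬝ᵥ A *ᵥ y = y ⬝ᵥ A *ᵥ x := by
    intro x y
    have : Aᵀ = A := by ext i j; exact hs j i
    rw [dotProduct_mulVec, ← mulVec_transpose, this, dotProduct_comm]
  have halt : ∀ x : ι → ZMod 2, x ⬝ᵥ A *ᵥ x = 0 := by
    intro x
    simp only [dotProduct, mulVec, Finset.mul_sum]
    rw [← Finset.sum_product']
    refine Finset.sum_involution (fun p _ => p.swap) (fun p _ => ?_) (fun p _ h e => h ?_)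
      (fun p _ => by simp) (fun p _ => by simp)
    · simp only [Prod.fst_swap, Prod.snd_swap]
      rw [hs p.2 p.1, show x p.2 * (A p.1 p.2 * x p.1) = x p.1 * (A p.1 p.2 * x p.2) by ring]
      exact CharTwo.add_self_eq_zero _
    · have : p.2 = p.1 := congrArg Prod.fst e
      rw [this, hd]; simp
  obtain ⟨W, hW⟩ := Submodule.exists_isCompl (LinearMap.ker A.mulVecLin)
  have e1 := LinearMap.finrank_range_add_finrank_ker A.mulVecLin
  have e2 := Submodule.finrank_add_eq_of_isCompl hW
  have e3 : Module.finrank (ZMod 2) (LinearMap.range A.mulVecLin) = Module.finrank (ZMod 2) W := by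
    omega
  rw [e3]
  by_contra hodd
  rw [Nat.not_even_iff_odd] at hodd
  let b := Module.finBasis (ZMod 2) W
  let G : Matrix (Fin (Module.finrank (ZMod 2) W)) (Fin (Module.finrank (ZMod 2) W)) (ZMod 2) :=
    fun i j => (b i : ι → ZMod 2) ⬝ᵥ A *ᵥ (b j : ι → ZMod 2)
  have hG := det_odd G (fun i j => hsym _ _) (fun i => halt _) hodd
  obtain ⟨v, hv, hGv⟩ := exists_mulVec_eq_zero_iff.2 hG
  let w : W := ∑ j, v j • b j
  have hw1 : ∀ i, (b i : ι → ZMod 2) ⬝ᵥ A *ᵥ (w : ι → ZMod 2) = 0 := by
    intro i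
    have := congrFun hGv i
    simp only [w, Submodule.coe_sum, Submodule.coe_smul, mulVec_sum, mulVec_smul, dotProduct_sum,
      dotProduct_smul, smul_eq_mul]
    rw [← Pi.zero_apply (M := fun _ => ZMod 2) i, ← this]
    simp only [mulVec, G]
    exact Finset.sum_congr rfl fun j _ => mul_comm _ _
  have hw2 : ∀ x : ι → ZMod 2, x ⬝ᵥ A *ᵥ (w : ι → ZMod 2) = 0 := by
    intro x
    have hx : x ∈ LinearMap.ker A.mulVecLin ⊔ W := by rw [hW.sup_eq_top]; trivial
    obtain ⟨y, hy, z, hz, rfl⟩ := Submodule.mem_sup.1 hx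
    have hy' : A *ᵥ y = 0 := hy
    rw [add_dotProduct, hsym y, hy', dotProduct_zero, zero_add]
    have : z = ∑ i, b.repr ⟨z, hz⟩ i • (b i : ι → ZMod 2) := by
      have := congrArg Subtype.val (b.sum_repr ⟨z, hz⟩)
      simp only [Submodule.coe_sum, Submodule.coe_smul] at this
      exact this.symm
    rw [this, sum_dotProduct]
    exact Finset.sum_eq_zero fun i _ => by rw [smul_dotProduct, hw1, smul_zero]
  have hw3 : (w : ι → ZMod 2) ∈ LinearMap.ker A.mulVecLin := by
    change A *ᵥ (w : ι → ZMod 2) = 0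
    ext i
    have := hw2 (Pi.single i 1)
    rwa [single_one_dotProduct] at this
  have hw4 : w = 0 := Subtype.ext ((Submodule.disjoint_def.1 hW.disjoint) _ hw3 w.2)
  exact hv (funext (Fintype.linearIndependent_iff.1 b.linearIndependent v hw4))

theorem one_mem {r : ℕ} (W : Submodule (ZMod 2) ((Fin r → ZMod 2) → ZMod 2))
    (hW : ∀ y ∈ W, ∀ v, (fun x => y (x + v)) ∈ W) (h0 : ∃ y ∈ W, y ≠ 0) :
    (fun _ => (1 : ZMod 2)) ∈ W := by
  have key : ∀ S : Finset (Fin r → ZMod 2), ∃ y ∈ W, y ≠ 0 ∧ ∀ v ∈ S, ∀ x, y (x + v) = y x := by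
    intro S
    induction S using Finset.induction_on with
    | empty => obtain ⟨y, hy, h⟩ := h0; exact ⟨y, hy, h, by simp⟩
    | insert a S _ ih =>
      obtain ⟨y, hy, hy0, hS⟩ := ih
      by_cases h : ∀ x, y (x + a) = y x
      · refine ⟨y, hy, hy0, fun v hv => ?_⟩
        rcases Finset.mem_insert.1 hv with rfl | hv
        · exact h
        · exact hS v hv
      · refine ⟨y + fun x => y (x + a), W.add_mem hy (hW y hy a), fun e => h fun x => ?_,
          fun v hv x => ?_⟩
        · have := congrFun e x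
          simp only [Pi.add_apply, Pi.zero_apply] at this
          exact (CharTwo.add_eq_zero.1 this).symm
        · rcases Finset.mem_insert.1 hv with rfl | hv
          · have : x + v + v = x := by ext i; simp [add_assoc, CharTwo.add_self_eq_zero]
            simp only [Pi.add_apply, this]; ring
          · simp only [Pi.add_apply]
            rw [hS v hv, add_right_comm, hS v hv]
  obtain ⟨y, hy, hy0, h⟩ := key Finset.univ
  have h1 : ∀ x, y x = y 0 := fun x => by simpa using h x (Finset.mem_univ _) 0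
  have h2 : y 0 = 1 := by
    have : ∀ c : ZMod 2, c ≠ 0 → c = 1 := by decide
    exact this _ fun e => hy0 (funext fun x => (h1 x).trans e)
  have : y = fun _ => 1 := funext fun x => (h1 x).trans h2
  exact this ▸ hy

end Pool.Agent.H.MP_8ee885_co
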