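import Pool.Agent.H.MP_8ee885_co.A

set_option autoImplicit false

namespace Pool.Agent.H.MP_8ee885_co

open Matrix

def red {ι : Type} (x : ι → ℤ) : ι → ZMod 2 := fun i => (x i : ZMod 2)

theorem red_mulVec {ι : Type} [Fintype ι] (L : Matrix ι ι ℤ) (z : ι → ℤ) :
    red (L *ᵥ z) = (L.map (Int.cast : ℤ → ZMod 2)) *ᵥ red z := by
  ext i; simp [red, mulVec, dotProduct]

theorem red_surj {ι : Type} (y : ι → ZMod 2) : ∃ x, red x = y :=
  ⟨fun i => ((y i).val : ℤ), by ext i; simp [red]⟩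

theorem red_zero {ι : Type} (x : ι → ℤ) (h : red x = 0) : ∃ y, x = (2 : ℤ) • y := by
  have : ∀ i, ∃ c, x i = 2 * c := fun i =>
    (ZMod.intCast_zmod_eq_zero_iff_dvd (x i) 2).1 (congrFun h i)
  choose y hy using this
  exact ⟨y, funext hy⟩

def sumL (ι : Type) [Fintype ι] : (ι → ZMod 2) →ₗ[ZMod 2] ZMod 2 where
  toFun y := ∑ i, y i
  map_add' x y := by simp [Finset.sum_add_distrib]
  map_smul' c y := by simp [Finset.mul_sum]

theorem dimK {ι : Type} [Fintype ι] [DecidableEq ι] [Nonempty ι] (L : Matrix ι ι ℤ)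
    (hcol : ∀ z, ∑ i, (L *ᵥ z) i = 0)
    (htor : ∀ x : ι → ℤ, ∑ i, x i = 0 → ∃ (N : ℕ) (z : ι → ℤ), 0 < N ∧ L *ᵥ z = N • x) :
    Module.finrank (ZMod 2)
      (ModN (AddCommGroup.torsion ((ι → ℤ) ⧸ LinearMap.range L.mulVecLin)) 2) +
      Module.finrank (ZMod 2) (LinearMap.range (L.map (Int.cast : ℤ → ZMod 2)).mulVecLin) + 1 =
      Fintype.card ι := by
  set R := LinearMap.range (L.map (Int.cast : ℤ → ZMod 2)).mulVecLin with hR
  have mem_tor : ∀ x : ι → ℤ, (Submodule.Quotient.mk x : (ι → ℤ) ⧸ LinearMap.range L.mulVecLin) ∈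
      AddCommGroup.torsion ((ι → ℤ) ⧸ LinearMap.range L.mulVecLin) ↔ ∑ i, x i = 0 := by
    intro x
    rw [AddCommGroup.mem_torsion, isOfFinAddOrder_iff_nsmul_eq_zero]
    simp only [← Submodule.Quotient.mk_smul, Submodule.Quotient.mk_eq_zero]
    constructor
    · rintro ⟨N, hN, z, hz⟩
      have := hcol z
      rw [mulVecLin_apply] at hz
      simp only [hz, Pi.smul_apply, nsmul_eq_mul, ← Finset.mul_sum] at this
      exact (mul_eq_zero.1 this).resolve_left (by exact_mod_cast hN.ne')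
    · intro h
      obtain ⟨N, z, hN, hz⟩ := htor x h
      exact ⟨N, hN, z, hz⟩
  let f0 : (ι → ℤ) →+ ((ι → ZMod 2) ⧸ R) :=
    { toFun := fun x => R.mkQ (red x)
      map_zero' := by rw [show red (0 : ι → ℤ) = 0 by ext i; simp [red], map_zero]
      map_add' := fun x y => by
        rw [show red (x + y) = red x + red y by ext i; simp [red], map_add] }
  let f1 : ((ι → ℤ) ⧸ LinearMap.range L.mulVecLin) →ₗ[ℤ] ((ι → ZMod 2) ⧸ R) :=
    Submodule.liftQ _ f0.toIntLinearMap (by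
      rintro _ ⟨z, rfl⟩
      change R.mkQ (red (L *ᵥ z)) = 0
      rw [red_mulVec, Submodule.mkQ_apply, Submodule.Quotient.mk_eq_zero]
      exact ⟨_, rfl⟩)
  let f2 : AddCommGroup.torsion ((ι → ℤ) ⧸ LinearMap.range L.mulVecLin) →+ ((ι → ZMod 2) ⧸ R) :=
    f1.toAddMonoidHom.comp (AddSubgroup.subtype _)
  let f3 : ModN (AddCommGroup.torsion ((ι → ℤ) ⧸ LinearMap.range L.mulVecLin)) 2 →ₗ[ZMod 2]
      ((ι → ZMod 2) ⧸ R) := ModN.liftEquiv'.symm ⟨f2, fun g => by
        rw [← Nat.cast_smul_eq_nsmul (ZMod 2), show ((2 : ℕ) : ZMod 2) = 0 from rfl, zero_smul]⟩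
  have hf3 : ∀ (x : ι → ℤ) (hx), f3 (Submodule.Quotient.mk ⟨Submodule.Quotient.mk x, hx⟩) =
      R.mkQ (red x) := fun x hx => rfl
  have hinj : Function.Injective f3 := by
    rw [injective_iff_map_eq_zero]
    intro k hk
    obtain ⟨⟨k, hx⟩, rfl⟩ := Submodule.Quotient.mk_surjective _ k
    obtain ⟨x, rfl⟩ := Submodule.Quotient.mk_surjective _ k
    rw [hf3, Submodule.mkQ_apply, Submodule.Quotient.mk_eq_zero] at hk
    obtain ⟨z, hz⟩ := hk
    obtain ⟨z, rfl⟩ := red_surj z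
    rw [mulVecLin_apply, ← red_mulVec] at hz
    obtain ⟨y, hy⟩ := red_zero (x - L *ᵥ z) (by
      ext i; have := congrFun hz i; simp only [red] at this; simp [red, this])
    have hy0 : ∑ i, y i = 0 := by
      have h1 := (mem_tor x).1 hx
      have h2 : ∑ i, (x - L *ᵥ z) i = 0 := by
        simp only [Pi.sub_apply, Finset.sum_sub_distrib, h1, hcol, sub_zero]
      simp only [hy, Pi.smul_apply, smul_eq_mul, ← Finset.mul_sum] at h2
      linarith
    rw [Submodule.Quotient.mk_eq_zero]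
    refine ⟨⟨Submodule.Quotient.mk y, (mem_tor y).2 hy0⟩, Subtype.ext ?_⟩
    change ((2 : ℕ) : ℤ) • (Submodule.Quotient.mk y : (ι → ℤ) ⧸ LinearMap.range L.mulVecLin) =
      Submodule.Quotient.mk x
    rw [← Submodule.Quotient.mk_smul, eq_comm, Submodule.Quotient.eq]
    refine ⟨z, ?_⟩
    rw [mulVecLin_apply, Nat.cast_ofNat, ← hy]; abel
  let E := LinearMap.ker (sumL ι)
  have hrange : LinearMap.range f3 = LinearMap.range (R.mkQ ∘ₗ E.subtype) := by
    ext q
    constructor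
    · rintro ⟨k, rfl⟩
      obtain ⟨⟨k, hx⟩, rfl⟩ := Submodule.Quotient.mk_surjective _ k
      obtain ⟨x, rfl⟩ := Submodule.Quotient.mk_surjective _ k
      refine ⟨⟨red x, ?_⟩, (hf3 x hx).symm⟩
      change ∑ i, ((x i : ℤ) : ZMod 2) = 0
      rw [← Int.cast_sum, (mem_tor x).1 hx, Int.cast_zero]
    · rintro ⟨⟨y, hy⟩, rfl⟩
      obtain ⟨x, rfl⟩ := red_surj y
      have h1 : ((∑ i, x i : ℤ) : ZMod 2) = 0 := by rw [Int.cast_sum]; exact hy
      obtain ⟨i0⟩ := ‹Nonempty ι›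
      refine ⟨Submodule.Quotient.mk ⟨Submodule.Quotient.mk (x - Pi.single i0 (∑ i, x i)),
        (mem_tor _).2 (by simp [Finset.sum_sub_distrib])⟩, ?_⟩
      rw [hf3]
      change R.mkQ _ = R.mkQ (red x)
      congr 1
      ext i
      simp only [red, Pi.sub_apply, Int.cast_sub, Pi.single_apply]
      split_ifs
      · rw [h1, sub_zero]
      · simp
  have hRE : R ≤ E := by
    rintro _ ⟨z, rfl⟩
    obtain ⟨z, rfl⟩ := red_surj z
    rw [mulVecLin_apply, ← red_mulVec]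
    change ∑ i, (((L *ᵥ z) i : ℤ) : ZMod 2) = 0
    rw [← Int.cast_sum, hcol, Int.cast_zero]
  have e1 := LinearMap.finrank_range_of_inj hinj
  have e2 := LinearMap.finrank_range_add_finrank_ker (R.mkQ ∘ₗ E.subtype)
  have e3 : Module.finrank (ZMod 2) (LinearMap.ker (R.mkQ ∘ₗ E.subtype)) =
      Module.finrank (ZMod 2) R := by
    rw [LinearMap.ker_comp, Submodule.ker_mkQ]
    exact (Submodule.comapSubtypeEquivOfLe hRE).finrank_eq
  have e4 := LinearMap.finrank_range_add_finrank_ker (sumL ι)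
  have e5 : LinearMap.range (sumL ι) = ⊤ := by
    obtain ⟨i0⟩ := ‹Nonempty ι›
    exact LinearMap.range_eq_top.2 fun c => ⟨Pi.single i0 c, by simp [sumL]⟩
  rw [e5, finrank_top, Module.finrank_self, Module.finrank_fintype_fun_eq_card] at e4
  rw [hrange] at e1
  change 1 + Module.finrank (ZMod 2) E = _ at e4
  omega

theorem tor_of {ι : Type} [Fintype ι] [DecidableEq ι] [Nonempty ι] (L : Matrix ι ι ℤ)
    (hcol : ∀ z, ∑ i, (L *ᵥ z) i = 0) (hker : ∀ y, L *ᵥ y = 0 → ∀ i j, y i = y j)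
    (x : ι → ℤ) (hx : ∑ i, x i = 0) : ∃ (N : ℕ) (z : ι → ℤ), 0 < N ∧ L *ᵥ z = N • x := by
  let J : Matrix ι ι ℤ := fun _ _ => 1
  have hc : (Fintype.card ι : ℤ) ≠ 0 := by exact_mod_cast Fintype.card_ne_zero
  have key : ∀ y w : ι → ℤ, (L + J) *ᵥ y = w → ∑ i, w i = 0 → L *ᵥ y = w ∧ ∑ i, y i = 0 := by
    intro y w h hw
    have hJ : J *ᵥ y = fun _ => ∑ i, y i := by ext i; simp [J, mulVec, dotProduct]
    rw [add_mulVec, hJ] at h
    have h2 : ∑ i, y i = 0 := by
      rw [← h] at hw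
      simp only [Pi.add_apply, Finset.sum_add_distrib, hcol, zero_add, Finset.sum_const,
        Finset.card_univ, nsmul_eq_mul] at hw
      exact (mul_eq_zero.1 hw).resolve_left hc
    rw [h2] at h
    exact ⟨by rw [← h]; ext i; simp, h2⟩
  have hdet : (L + J).det ≠ 0 := by
    intro h
    obtain ⟨y, hy, h0⟩ := exists_mulVec_eq_zero_iff.2 h
    obtain ⟨h1, h2⟩ := key y 0 h0 (by simp)
    refine hy (funext fun i => ?_)
    rw [Finset.sum_congr rfl (fun j _ => hker y h1 j i)] at h2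
    simp only [Finset.sum_const, Finset.card_univ, nsmul_eq_mul] at h2
    exact (mul_eq_zero.1 h2).resolve_left hc
  have h := (key ((L + J).det • ((L + J).adjugate *ᵥ x)) (((L + J).det * (L + J).det) • x) (by
    rw [mulVec_smul, mulVec_mulVec, mul_adjugate, smul_mulVec, one_mulVec, smul_smul])
    (by simp only [Pi.smul_apply, smul_eq_mul, ← Finset.mul_sum, hx, mul_zero])).1
  refine ⟨(L + J).det.natAbs * (L + J).det.natAbs, _, ?_, h.trans ?_⟩
  · exact Nat.mul_pos (Int.natAbs_pos.2 hdet) (Int.natAbs_pos.2 hdet)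
  · rw [← Int.natAbs_mul_self, natCast_zsmul]

end Pool.Agent.H.MP_8ee885_co
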