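import Pool.Agent.H.MP_8ee885_co.B

set_option autoImplicit false

namespace Pool.Agent.H.MP_8ee885_co

open Matrix

abbrev W (r : ℕ) := Fin r → ZMod 2

theorem aa {r : ℕ} (u v : W r) : u + (u + v) = v := by
  ext i; simp [← add_assoc, CharTwo.add_self_eq_zero]

def lp {r : ℕ} (μ : W r → ℕ) : Matrix (W r) (W r) ℤ := fun u w =>
  if u = w then ((∑ x, μ x : ℕ) : ℤ) else -((μ (u + w) : ℕ) : ℤ)

theorem lp_mulVec {r : ℕ} (μ : W r → ℕ) (h0 : μ 0 = 0) (z : W r → ℤ) (u : W r) :
    (lp μ *ᵥ z) u = ∑ v, (μ v : ℤ) * (z u - z (u + v)) := by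
  simp only [mulVec, dotProduct]
  rw [← Equiv.sum_comp (Equiv.addLeft u)]
  simp only [Equiv.coe_addLeft, lp, aa, left_eq_add, mul_sub, Finset.sum_sub_distrib]
  rw [← Finset.sum_mul, sub_eq_add_neg, ← Finset.sum_neg_distrib]
  have : ∀ v : W r, (if v = 0 then ((∑ x, μ x : ℕ) : ℤ) else -(μ v : ℤ)) * z (u + v) =
      (if v = 0 then ((∑ x, μ x : ℕ) : ℤ) * z u else 0) + -((μ v : ℤ) * z (u + v)) := by
    intro v; split_ifs with h
    · simp [h, h0]
    · simp
  simp only [this, Finset.sum_add_distrib, Finset.sum_ite_eq', Finset.mem_univ, if_true]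
  push_cast; rfl

theorem lp_col {r : ℕ} (μ : W r → ℕ) (h0 : μ 0 = 0) (z : W r → ℤ) : ∑ u, (lp μ *ᵥ z) u = 0 := by
  simp only [lp_mulVec μ h0]
  rw [Finset.sum_comm]
  refine Finset.sum_eq_zero fun v _ => ?_
  rw [← Finset.mul_sum, Finset.sum_sub_distrib, ← Equiv.sum_comp (Equiv.addRight v) z]
  simp

theorem lp_ker {r : ℕ} (μ : W r → ℕ) (h0 : μ 0 = 0)
    (hs : Submodule.span (ZMod 2) {v | μ v ≠ 0} = ⊤) (y : W r → ℤ) (hy : lp μ *ᵥ y = 0)
    (i j : W r) : y i = y j := by
  obtain ⟨m, hm⟩ := Finite.exists_max y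
  have key : ∀ v ∈ Submodule.span (ZMod 2) {v | μ v ≠ 0}, ∀ u, y u = y m → y (u + v) = y m := by
    intro v hv
    induction hv using Submodule.span_induction with
    | mem v hv =>
      intro u hu
      have h1 := congrFun hy u
      rw [lp_mulVec μ h0, Pi.zero_apply, Finset.sum_eq_zero_iff_of_nonneg (fun x _ =>
        mul_nonneg (Int.natCast_nonneg _) (by have := hm (u + x); omega))] at h1
      have := (mul_eq_zero.1 (h1 v (Finset.mem_univ _))).resolve_left (by exact_mod_cast hv)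
      omega
    | zero => intro u hu; rwa [add_zero]
    | add a b _ _ ha hb => intro u hu; rw [← add_assoc]; exact hb _ (ha u hu)
    | smul c a _ ha =>
      intro u hu
      have : ∀ c : ZMod 2, c = 0 ∨ c = 1 := by decide
      rcases this c with rfl | rfl
      · rwa [zero_smul, add_zero]
      · rw [one_smul]; exact ha u hu
  have h : ∀ x, y x = y m := fun x => by
    have := key (m + x) (by rw [hs]; trivial) m rfl
    rwa [aa] at this
  rw [h i, h j]

theorem one_range {r : ℕ} (A : Matrix (W r) (W r) (ZMod 2))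
    (h : ∀ x w v, A (x + v) (w + v) = A x w) (i j : W r) (h0 : A i j ≠ 0) :
    (fun _ => (1 : ZMod 2)) ∈ LinearMap.range A.mulVecLin := by
  refine one_mem _ ?_ ⟨_, ⟨Pi.single j 1, rfl⟩, fun e => h0 ?_⟩
  · rintro _ ⟨z, rfl⟩ v
    refine ⟨fun x => z (x + v), funext fun x => ?_⟩
    simp only [mulVecLin_apply, mulVec, dotProduct]
    rw [← Equiv.sum_comp (Equiv.addRight v) (fun w => A (x + v) w * z w)]
    simp [h]
  · simpa using congrFun e i

theorem card_odd {r : ℕ} (hr : 1 ≤ r) (f : W r → ZMod 2) (h0 : f 0 = 0) (h : ∀ u, u ≠ 0 → f u = 1) :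
    ∑ u, f u = 1 := by
  have : ∀ u, f u = 1 + if u = 0 then 1 else 0 := by
    intro u; split_ifs with e
    · rw [e, h0]; rfl
    · rw [h u e, add_zero]
  simp only [this, Finset.sum_add_distrib, Finset.sum_ite_eq', Finset.mem_univ, if_true,
    Finset.sum_const, Finset.card_univ, Fintype.card_fun, ZMod.card, Fintype.card_fin, nsmul_eq_mul]
  obtain ⟨k, rfl⟩ := Nat.exists_eq_add_of_le' hr
  rw [pow_succ, Nat.cast_mul, show ((2 : ℕ) : ZMod 2) = 0 from rfl]; simp

theorem rank_all {r : ℕ} (hr : 1 ≤ r) (μ : W r → ℕ) (h0 : μ 0 = 0) (h : ∀ u, u ≠ 0 → Odd (μ u)) :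
    Module.finrank (ZMod 2)
      (LinearMap.range ((lp μ).map (Int.cast : ℤ → ZMod 2)).mulVecLin) = 1 := by
  have h1 : ∀ u, u ≠ 0 → ((μ u : ℕ) : ZMod 2) = 1 := fun u hu => ZMod.natCast_eq_one_iff_odd.2 (h u hu)
  have hJ : ∀ u w, (lp μ).map (Int.cast : ℤ → ZMod 2) u w = 1 := by
    intro u w
    simp only [map_apply, lp]
    split_ifs with e
    · rw [Int.cast_natCast, Nat.cast_sum]; exact card_odd hr _ (by simp [h0]) h1
    · rw [Int.cast_neg, Int.cast_natCast, h1 _ (fun e' => e (by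
        have := aa u w; rw [e', add_zero] at this; exact this))]; rfl
  have : LinearMap.range ((lp μ).map (Int.cast : ℤ → ZMod 2)).mulVecLin =
      Submodule.span (ZMod 2) {fun _ => (1 : ZMod 2)} := by
    apply le_antisymm
    · rintro _ ⟨z, rfl⟩
      exact Submodule.mem_span_singleton.2 ⟨∑ w, z w, by
        ext u; simp only [mulVecLin_apply, mulVec, dotProduct, hJ]; simp⟩
    · rw [Submodule.span_singleton_le_iff_mem]
      exact one_range _ (fun x w v => by rw [hJ, hJ]) 0 0 (by rw [hJ]; exact one_ne_zero)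
  rw [this]
  exact finrank_span_singleton fun e => one_ne_zero (congrFun e 0)

theorem rank_even {r : ℕ} (μ : W r → ℕ) (h : ¬ ∀ u, u ≠ 0 → Odd (μ u)) :
    Even (Module.finrank (ZMod 2)
      (LinearMap.range ((lp μ).map (Int.cast : ℤ → ZMod 2)).mulVecLin)) := by
  set L := (lp μ).map (Int.cast : ℤ → ZMod 2) with hL
  have hs : ∀ i j, L i j = L j i := by
    intro i j; simp only [hL, map_apply, lp, eq_comm (a := i), add_comm i j]
  have hsh : ∀ x w v, L (x + v) (w + v) = L x w := by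
    intro x w v
    have : x + v + (w + v) = x + w := by rw [add_comm w v, add_assoc, aa]
    simp only [hL, map_apply, lp, add_left_inj, this]
  have hd : ∀ i, L i i = ((∑ x, μ x : ℕ) : ZMod 2) := by
    intro i; simp only [hL, map_apply, lp, if_true, Int.cast_natCast]
  have h01 : ∀ c : ZMod 2, c = 0 ∨ c = 1 := by decide
  rcases h01 ((∑ x, μ x : ℕ) : ZMod 2) with hn | hn
  · exact alt_even L hs fun i => (hd i).trans hn
  · let J : Matrix (W r) (W r) (ZMod 2) := fun _ _ => 1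
    have hJ : ∀ z, J *ᵥ z = (∑ w, z w) • fun _ => (1 : ZMod 2) := by
      intro z; ext u; simp [J, mulVec, dotProduct]
    have hLJ : ∀ i j, (L + J) i j = L i j + 1 := fun i j => rfl
    push Not at h
    obtain ⟨u, hu, hu'⟩ := h
    have o1 := one_range L hsh 0 0 (by rw [hd, hn]; exact one_ne_zero)
    have o2 := one_range (L + J) (fun x w v => by rw [hLJ, hLJ, hsh]) 0 u (by
      rw [hLJ]
      simp only [hL, map_apply, lp, if_neg hu.symm, zero_add, Int.cast_neg, Int.cast_natCast]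
      rw [ZMod.natCast_eq_zero_iff_even.2 (Nat.not_odd_iff_even.1 hu')]; decide)
    have e : LinearMap.range L.mulVecLin = LinearMap.range (L + J).mulVecLin := by
      apply le_antisymm
      · rintro _ ⟨z, rfl⟩
        have : L.mulVecLin z = (L + J).mulVecLin z - (∑ w, z w) • fun _ => (1 : ZMod 2) := by
          simp only [mulVecLin_apply, add_mulVec, hJ]; abel
        rw [this]
        exact sub_mem ⟨z, rfl⟩ (Submodule.smul_mem _ _ o2)
      · rintro _ ⟨z, rfl⟩
        have : (L + J).mulVecLin z = L.mulVecLin z + (∑ w, z w) • fun _ => (1 : ZMod 2) := by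
          simp only [mulVecLin_apply, add_mulVec, hJ]
        rw [this]
        exact add_mem ⟨z, rfl⟩ (Submodule.smul_mem _ _ o1)
    rw [e]
    exact alt_even _ (fun i j => by rw [hLJ, hLJ, hs i j])
      (fun i => by rw [hLJ, hd, hn]; rfl)

def chi (c : ZMod 2) : ℤ := (-1) ^ c.val

theorem chi_add : ∀ a b, chi (a + b) = chi a * chi b := by decide

theorem chi_sum {r : ℕ} (x : W r) : ∑ u : W r, chi (u ⬝ᵥ x) = if x = 0 then 2 ^ r else 0 := by
  split_ifs with h
  · simp [h, chi]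
  · obtain ⟨i, hi⟩ := Function.ne_iff.1 h
    have h1 : chi (Pi.single i 1 ⬝ᵥ x) = -1 := by
      rw [single_one_dotProduct]
      have : ∀ c : ZMod 2, c ≠ 0 → chi c = -1 := by decide
      exact this _ hi
    have := Equiv.sum_comp (Equiv.addRight (Pi.single i 1 : W r)) (fun u => chi (u ⬝ᵥ x))
    simp only [Equiv.coe_addRight, add_dotProduct, chi_add, h1, mul_neg, mul_one,
      Finset.sum_neg_distrib] at this
    linarith

def ev {r : ℕ} (μ : W r → ℕ) (u : W r) : ℤ := ∑ v, (μ v : ℤ) * (1 - chi (u ⬝ᵥ v))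

theorem ev_ne {r : ℕ} (μ : W r → ℕ) (hs : Submodule.span (ZMod 2) {v | μ v ≠ 0} = ⊤) (u : W r)
    (hu : u ≠ 0) : ev μ u ≠ 0 := by
  intro h
  have c1 : ∀ c, 0 ≤ 1 - chi c := by decide
  have c2 : ∀ c, 1 - chi c = 0 → c = 0 := by decide
  rw [ev, Finset.sum_eq_zero_iff_of_nonneg
    (fun x _ => mul_nonneg (Int.natCast_nonneg _) (c1 _))] at h
  have key : ∀ v ∈ Submodule.span (ZMod 2) {v | μ v ≠ 0}, u ⬝ᵥ v = 0 := by
    intro v hv
    induction hv using Submodule.span_induction with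
    | mem v hv =>
      exact c2 _ ((mul_eq_zero.1 (h v (Finset.mem_univ _))).resolve_left (by exact_mod_cast hv))
    | zero => simp
    | add a b _ _ ha hb => rw [dotProduct_add, ha, hb, add_zero]
    | smul c a _ ha => rw [dotProduct_smul, ha, smul_zero]
  refine hu (funext fun i => ?_)
  have := key (Pi.single i 1) (by rw [hs]; trivial)
  rwa [dotProduct_single_one] at this

theorem all_odd {r : ℕ} (hr : 1 ≤ r) (μ : W r → ℕ) (h0 : μ 0 = 0)
    (hs : Submodule.span (ZMod 2) {v | μ v ≠ 0} = ⊤) (hg : Finset.univ.gcd μ = 1)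
    (h : ∀ u u', u ≠ 0 → u' ≠ 0 → padicValInt 2 (ev μ u) = padicValInt 2 (ev μ u')) :
    ∀ x, x ≠ 0 → Odd (μ x) := by
  intro x0 hx0
  set k := padicValInt 2 (ev μ x0) with hk
  have h1 : ∀ u, ∃ o : ℤ, ev μ u = 2 ^ k * o ∧ (u = 0 → o = 0) ∧ (u ≠ 0 → Odd o) := by
    intro u
    by_cases hu : u = 0
    · exact ⟨0, by simp [hu, ev, chi], fun _ => rfl, fun e => absurd hu e⟩
    · obtain ⟨o, ho⟩ : ((2 : ℕ) : ℤ) ^ k ∣ ev μ u :=
        (padicValInt_dvd_iff k _).2 (Or.inr (h x0 u hx0 hu).le)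
      refine ⟨o, ho, fun e => absurd e hu, fun _ => ?_⟩
      rw [← Int.not_even_iff_odd]
      rintro ⟨c, hc⟩
      have : ((2 : ℕ) : ℤ) ^ (k + 1) ∣ ev μ u := ⟨c, by rw [ho, hc]; push_cast; ring⟩
      rcases (padicValInt_dvd_iff _ _).1 this with e | e
      · exact ev_ne μ hs u hu e
      · have := h x0 u hx0 hu; omega
  choose o ho using h1
  have h2 : ∀ x, x ≠ 0 → ∃ t : ℤ, Odd t ∧ 2 ^ r * (μ x : ℤ) = 2 ^ k * t := by
    intro x hx
    refine ⟨-∑ u, o u * chi (u ⬝ᵥ x), Odd.neg ?_, ?_⟩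
    · rw [← ZMod.intCast_eq_one_iff_odd, Int.cast_sum]
      refine card_odd hr _ (by simp [(ho 0).2.1 rfl]) fun u hu => ?_
      have c : ∀ c, ((chi c : ℤ) : ZMod 2) = 1 := by decide
      rw [Int.cast_mul, c, mul_one, ZMod.intCast_eq_one_iff_odd]; exact (ho u).2.2 hu
    · have e1 : ∑ u, ev μ u * chi (u ⬝ᵥ x) = -(2 ^ r * (μ x : ℤ)) := by
        simp only [ev, Finset.sum_mul]
        rw [Finset.sum_comm]
        have : ∀ v, ∑ u : W r, (μ v : ℤ) * (1 - chi (u ⬝ᵥ v)) * chi (u ⬝ᵥ x) =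
            if v = x then -(2 ^ r * (μ x : ℤ)) else 0 := by
          intro v
          have e : ∀ u : W r, (μ v : ℤ) * (1 - chi (u ⬝ᵥ v)) * chi (u ⬝ᵥ x) =
              μ v * (chi (u ⬝ᵥ x) - chi (u ⬝ᵥ (v + x))) := by
            intro u; rw [dotProduct_add, chi_add]; ring
          simp only [e, ← Finset.mul_sum, Finset.sum_sub_distrib, chi_sum, if_neg hx]
          have e2 : v + x = 0 ↔ v = x := by
            constructor
            · intro e; have := aa v x; rw [e, add_zero] at this; exact this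
            · rintro rfl; simpa using aa v 0
          simp only [e2]
          split_ifs with e3
          · rw [e3]; ring
          · simp
        simp only [this, Finset.sum_ite_eq', Finset.mem_univ, if_true]
      simp only [(ho _).1, mul_assoc, ← Finset.mul_sum] at e1
      linarith
  have h3 : k ≤ r := by
    by_contra hlt
    have : 2 ∣ Finset.univ.gcd μ := Finset.dvd_gcd fun x _ => by
      by_cases hx : x = 0
      · simp [hx, h0]
      · obtain ⟨t, _, ht⟩ := h2 x hx
        obtain ⟨c, hc⟩ := Nat.exists_eq_add_of_lt (not_le.1 hlt)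
        rw [hc, add_assoc, pow_add, mul_assoc] at ht
        have := mul_left_cancel₀ (by positivity) ht
        have h4 : (2 : ℤ) ∣ μ x := ⟨2 ^ c * t, by rw [this]; ring⟩
        exact_mod_cast h4
    rw [hg] at this; omega
  obtain ⟨t, ht, e⟩ := h2 x0 hx0
  obtain ⟨c, hc⟩ := Nat.exists_eq_add_of_le h3
  rw [show (2 : ℤ) ^ r = 2 ^ k * 2 ^ c by rw [← pow_add, ← hc], mul_assoc] at e
  rw [← mul_left_cancel₀ (by positivity) e] at ht
  exact_mod_cast (Int.odd_mul.1 ht).2

end Pool.Agent.H.MP_8ee885_co
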